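import Mathlib
import Pool.Agent.MPe6b98e.Main

/-!
# The Pfaffian of the skew Hankel matrix of ternary Catalan numbers
-/

namespace Pool.Agent.Results.MP_e6b98e_co.PfaffianEvaluation

open Pool.Agent.MPe6b98e Equiv

/-- the ternary Catalan numbers `a_m = binom(3m, m) / (2m+1)` -/
def a (m : ℕ) : ℚ := ((3 * m).choose m : ℚ) / (2 * m + 1)

/-- the `2n × 2n` matrix with entries `(j - i) a_{i+j-1}`, `1 ≤ i, j ≤ 2n`; the element `x` of
`Fin (2n) = {0, …, 2n-1}` stands for the index `x + 1`. -/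
def A (n : ℕ) : Matrix (Fin (2 * n)) (Fin (2 * n)) ℚ := fun x y =>
  let i : ℕ := (x : ℕ) + 1
  let j : ℕ := (y : ℕ) + 1
  ((j : ℚ) - (i : ℚ)) * a (i + j - 1)

/-- The Pfaffian of a `2n × 2n` matrix `M`,
`Pf M = (1 / (2^n n!)) ∑_{σ ∈ S_{2n}} sgn σ ∏_{i=0}^{n-1} M_{σ(2i), σ(2i+1)}` (0-based indices). -/
def Pf {n : ℕ} (M : Matrix (Fin (2 * n)) (Fin (2 * n)) ℚ) : ℚ :=
  (1 / (2 ^ n * (n.factorial : ℚ))) *
    ∑ σ : Perm (Fin (2 * n)), ((Perm.sign σ : ℤ) : ℚ) *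
      ∏ i : Fin n, M (σ ⟨2 * i.1, by omega⟩) (σ ⟨2 * i.1 + 1, by omega⟩)

theorem Pf_eq {n : ℕ} (M : Matrix (Fin (2 * n)) (Fin (2 * n)) ℚ) : Pf M = pf M := rfl

theorem A_eq (n : ℕ) : A n = MA n := by
  ext x y
  simp only [A, MA, a, tc]
  rw [show (x : ℕ) + 1 + ((y : ℕ) + 1) - 1 = x + y + 1 by omega]
  push_cast
  ring

/-- the `k`-th factor of the product, halved, is the entry `τ_{2k-1}` -/
theorem factor (i : ℕ) : (1 / 2 : ℚ) *
    ((((3 * (i + 1) - 1).factorial : ℚ) * ((4 * (i + 1) - 3).factorial : ℚ) *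
        ((12 * (i + 1) - 6).factorial : ℚ)) /
      (((3 * (i + 1) - 2).factorial : ℚ) * ((8 * (i + 1) - 6).factorial : ℚ) *
        ((8 * (i + 1) - 3).factorial : ℚ))) = tauL (2 * i) := by
  rw [show 3 * (i + 1) - 1 = 3 * i + 1 + 1 by omega, show 4 * (i + 1) - 3 = 4 * i + 1 by omega,
    show 12 * (i + 1) - 6 = 12 * i + 6 by omega, show 3 * (i + 1) - 2 = 3 * i + 1 by omega,
    show 8 * (i + 1) - 6 = 8 * i + 2 by omega, show 8 * (i + 1) - 3 = 8 * i + 5 by omega]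
  unfold tauL
  rw [show 6 * (2 * i) + 6 = 12 * i + 6 by ring, show 2 * (2 * i) + 1 = 4 * i + 1 by ring,
    show 4 * (2 * i) + 2 = 8 * i + 2 by ring, show 4 * (2 * i) + 5 = 8 * i + 5 by ring,
    Nat.factorial_succ (3 * i + 1)]
  have n1 : ((3 * i + 1).factorial : ℚ) ≠ 0 := by exact_mod_cast Nat.factorial_ne_zero _
  have n2 : ((8 * i + 2).factorial : ℚ) ≠ 0 := by exact_mod_cast Nat.factorial_ne_zero _
  have n3 : ((8 * i + 5).factorial : ℚ) ≠ 0 := by exact_mod_cast Nat.factorial_ne_zero _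
  generalize ((12 * i + 6).factorial : ℚ) = F1 at *
  generalize ((4 * i + 1).factorial : ℚ) = F2 at *
  push_cast
  generalize ((3 * i + 1).factorial : ℚ) = F3 at *
  generalize ((8 * i + 2).factorial : ℚ) = F4 at *
  generalize ((8 * i + 5).factorial : ℚ) = F5 at *
  field_simp
  ring

/-- **Evaluation of the Pfaffian.** -/
theorem result (n : ℕ) (_hn : 1 ≤ n) :
    Pf (A n) = (1 / 2 : ℚ) ^ n * ∏ k ∈ Finset.Icc 1 n,
      (((3 * k - 1).factorial : ℚ) * ((4 * k - 3).factorial : ℚ) * ((12 * k - 6).factorial : ℚ)) /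
      (((3 * k - 2).factorial : ℚ) * ((8 * k - 6).factorial : ℚ) *
        ((8 * k - 3).factorial : ℚ)) := by
  rw [Pf_eq, A_eq, pf_MA_eq, Fin.prod_univ_eq_prod_range (fun i => tauL (2 * i)) n]
  clear _hn
  induction n with
  | zero => simp
  | succ n ih =>
    rw [Finset.prod_range_succ, ih, Finset.prod_Icc_succ_top (by omega), pow_succ, ← factor n]
    ring

end Pool.Agent.Results.MP_e6b98e_co.PfaffianEvaluation
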